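import Pool.Agent.CPT.StmtsC
import Pool.Agent.Helper78_ACIT.Prime

/-!
# CPT, row TSC: the test for factors of products (author helper98)
-/

set_option autoImplicit false

open MvPolynomial

namespace Pool.Agent.CPT.H98

open Pool.Agent.BSH Pool.Agent.Helper78_ACIT

theorem values_congr {A : Type} [CommRing A] (x y : ℕ → A) : ∀ (C : List Gate) (acc : List A),
    (∀ v, Gate.var v ∈ C → x v = y v) →
      C.foldl (fun vals g => vals ++ [g.value x vals]) acc =
        C.foldl (fun vals g => vals ++ [g.value y vals]) acc := by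
  intro C
  induction C with
  | nil => intro acc _; rfl
  | cons g C ih =>
    intro acc h
    simp only [List.foldl_cons]
    have e : g.value x acc = g.value y acc := by
      cases g with
      | var j => exact h j (List.mem_cons_self ..)
      | _ => rfl
    rw [e]
    exact ih _ (fun v hv => h v (List.mem_cons_of_mem _ hv))

theorem out_congr {A : Type} [CommRing A] (x y : ℕ → A) (C : List Gate)
    (h : ∀ v, Gate.var v ∈ C → x v = y v) : out x C = out y C := by
  unfold out values
  rw [values_congr x y C [] h]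

theorem pt_map {A A' : Type} [CommRing A] [CommRing A'] (φ : A →+* A') (r t : ℕ)
    (c : Fin r → ℕ) (i : ℕ) : φ (pt A r t c i) = pt A' r t c i := by
  rw [pt, pt, map_sum]
  refine Finset.sum_congr rfl fun j _ => ?_
  rw [map_mul, map_pow, map_natCast, map_natCast]

theorem crv_map {A A' : Type} [CommRing A] [CommRing A'] (φ : A →+* A') (r : ℕ)
    (H : List (ℕ × (Fin r → ℕ))) (τ : A) (i : ℕ) : φ (crv H τ i) = crv H (φ τ) i := by
  rw [crv, crv, map_sum]
  refine Finset.sum_congr rfl fun j _ => ?_
  rw [map_mul, map_mul, map_mul, map_natCast, map_prod, map_prod, pt_map]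
  congr 3
  · refine Finset.prod_congr rfl fun k _ => ?_
    rw [map_sub, map_natCast]
  · refine Finset.prod_congr rfl fun k _ => ?_
    rw [map_sub, map_natCast]

/-- The test, given a point of the curve. -/
theorem core (hGPM : GpmStmt) (hSZC : SzcStmt) (E : Type) [Field E] [CharZero E] (n s D b : ℕ)
    (G : List Gate) (hG : WellFormed G) (hv : ∀ v, Gate.var v ∈ G → v < n)
    (hpoly : poly G = 0 ∨ ((poly G).totalDegree ≤ D ∧ Pool.Agent.UO.length (poly G) ≤ 2 ^ b ∧
      ∃ τ : ℕ, τ ≤ (gp E n G).totalDegree * ((prs n s).length - 1) ∧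
        eval (fun i : Fin n => crv (prs n s) (τ : E) i) (gp E n G) ≠ 0)) :
    G ∈ ACIT ↔ ∀ p, p.Prime →
      p ≤ 64 * (b + D * ((prs n s).length * (D + (prs n s).length + 2) + bits n s) + 1) ^ 2 →
      ∀ τ ≤ D * ((prs n s).length - 1), out (fun i => crv (prs n s) (τ : ZMod p) i) G = 0 := by
  constructor
  · intro h p _ _ τ _
    rw [out_eq_eval, h.2, MvPolynomial.eval₂_zero]
  · intro htest
    refine ⟨hG, ?_⟩
    rcases hpoly with h0 | ⟨hD, hb, τ, hτ, hne⟩
    · exact h0
    exfalso
    obtain ⟨g1, g2, -⟩ := hGPM E n G hG hv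
    have hτD : τ ≤ D * ((prs n s).length - 1) :=
      hτ.trans (Nat.mul_le_mul_right _ (g1.trans hD))
    obtain ⟨γ, hγ⟩ : ∃ γ, γ = (prs n s).length * (D + (prs n s).length + 2) + bits n s :=
      ⟨_, rfl⟩
    obtain ⟨x, hx⟩ : ∃ x : ℕ → ℤ, x = fun i => if i < n then crv (prs n s) (τ : ℤ) i else 0 :=
      ⟨_, rfl⟩
    have hxle : ∀ i, (x i).natAbs ≤ 2 ^ γ := by
      intro i
      rw [hx]
      by_cases hi : i < n
      · simp only [if_pos hi]
        rw [hγ]
        exact hSZC n s D τ i hτD hi.le
      · simp only [if_neg hi]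
        exact Nat.zero_le _
    have h1 := g2 x
    have h2 : (fun i : Fin n => ((x i : ℤ) : E)) =
        fun i : Fin n => crv (prs n s) (τ : E) i := by
      funext i
      rw [hx]
      simp only [if_pos i.2]
      have h3 := crv_map (Int.castRingHom E) (2 * s + 1) (prs n s) (τ : ℤ) i
      rw [map_natCast] at h3
      exact h3
    rw [h2] at h1
    rw [h1] at hne
    obtain ⟨z, hz⟩ : ∃ z, z = out x G := ⟨_, rfl⟩
    rw [← hz] at hne
    have hz0 : z ≠ 0 := by
      rintro rfl
      exact hne Int.cast_zero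
    have hzle : z.natAbs ≤ 2 ^ (b + D * γ) := by
      have h3 : z = eval x (poly G) := by
        rw [hz, out_eq_eval]
        rfl
      rw [h3]
      refine (UO.natAbs_eval_le (poly G) x (2 ^ γ) D (Nat.one_le_pow _ _ (by norm_num)) hxle
        hD).trans ?_
      rw [← pow_mul, pow_add, mul_comm D γ]
      exact Nat.mul_le_mul_right _ hb
    obtain ⟨p, hp, hple, hpnd⟩ := exists_prime_not_dvd z.natAbs _ (Int.natAbs_ne_zero.mpr hz0)
      hzle
    apply hpnd
    rw [hγ] at hple
    have h4 := htest p hp hple τ hτD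
    have h5 : out (fun i => crv (prs n s) (τ : ZMod p) i) G = ((z : ℤ) : ZMod p) := by
      have h6 := out_map (Int.castRingHom (ZMod p)) x G
      rw [← hz] at h6
      refine Eq.trans (out_congr _ _ G fun v hvG => ?_) h6.symm
      rw [hx]
      simp only [if_pos (hv v hvG)]
      have h3 := crv_map (Int.castRingHom (ZMod p)) (2 * s + 1) (prs n s) (τ : ℤ) v
      rw [map_natCast] at h3
      exact h3.symm
    rw [h5, ZMod.intCast_zmod_eq_zero_iff_dvd, Int.natCast_dvd] at h4
    exact h4

/-- Row TSC. -/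
theorem tsc (hGPM : GpmStmt) (hPRD : PrdStmt) (hSZC : SzcStmt) : TscStmt := by
  intro E _ _ n s D b G hG hv hpoly
  refine core hGPM hSZC E n s D b G hG hv ?_
  rcases hpoly with h0 | ⟨hD, hb, L, hL, hL0, hdvd⟩
  · exact Or.inl h0
  · exact Or.inr ⟨hD, hb, hPRD E n s L _ hL hL0 hdvd⟩

end Pool.Agent.CPT.H98
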