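import Pool.Agent.CPT.StmtsE
import Pool.Agent.Helper98_CPT.TSC

/-!
# CPT, row TSL: the test for factors of products of limits (author helper98)
-/

set_option autoImplicit false

open MvPolynomial

namespace Pool.Agent.CPT.H98

open Pool.Agent.BSH Pool.Agent.Helper78_ACIT

/-- Row TSL. -/
theorem tsl (hGPM : GpmStmt) (hPRL : PrlStmt) (hSZC : SzcStmt) : TslStmt := by
  intro E _ _ n s D b G hG hv hpoly
  refine core hGPM hSZC E n s D b G hG hv ?_
  rcases hpoly with h0 | ⟨hD, hb, L, hL, hL0, hdvd⟩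
  · exact Or.inl h0
  · exact Or.inr ⟨hD, hb, hPRL E n s L _ hL hL0 hdvd⟩

end Pool.Agent.CPT.H98
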